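import Mathlib
import Pool.Agent.Lib_helper8.SDF.Asy

/-!
Large sets of nonzero elements of an abelian group are sequenceable (Alspach-Liversidge
conjecture for these sets), unless they nearly fill a finite subgroup, and then they are still
t-weak sequenceable for all t up to `(1 - ε) |A|`.

Idea of the proof.  Sets which are not concentrated in a finite subgroup of comparable order are
done in `SubgroupSparse` (random orderings, anticoncentration, 2-SAT).  Otherwise pass to a smallest
subgroup `H` such that nearly all of `A` lies in a coset `x + H`; if `x` has large order modulo `H`
this is again the random method (`Pool.Agent.SLD`).  If `x` has small order modulo `H`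
(`Pool.Agent.SDN`, dense case) most of `A` is put on paths found by a nibble in the finite group
`V = H + <x>`; the paths contain many reserved detours for disjoint zero-sum tuples of elements of
`A`; the paths are linked by elements of a random reserve; the leftovers and the elements outside
`x + H` are used up greedily in a reserved random part of `V`, with the help of zero-sum tuples
taken out of their detours.  If `A` is inside `V` and nearly as large as `V`, the vertices in the
first third of the ordering are used a second time in the last third.

Authors: helper8 (`Lib_helper8/SPQ`, `Lib_helper8/SDF`), helper26 (`Lib_helper26/SLD`,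
`Lib_helper26/SDN`), blocks of SDN by helper5, helper17, helper25, helper27, helper29, helper52,
helper57, helper58, helper76, helper83, helper88, helper89, helper98, helper99; blocks of SPQ and
SLD see `SubgroupSparse`; nibble theorem: helper96; McDiarmid inequality: helper15.
-/

namespace Pool.Agent.Results.MP_b4ec45_co.AsymptoticSeq

theorem result (ε : ℝ) (hε : 0 < ε) :
    ∃ K : ℕ, ∀ {G : Type*} [AddCommGroup G] (A : Finset G), (0 : G) ∉ A → K ≤ A.card →
      ∃ a : Fin A.card → G, Function.Injective a ∧ Set.range a = (A : Set G) ∧
        ∀ i j : ℕ, i < j → j ≤ A.card → ¬ (i = 0 ∧ j = A.card) →
          ((∃ V : AddSubgroup G, (V : Set G).Finite ∧ (Nat.card V : ℝ) ≤ (1 + ε) * A.card ∧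
            (A : Set G) ⊆ V) → (j : ℝ) ≤ i + (1 - ε) * A.card) →
          ∑ m : Fin A.card with m.val < i, a m ≠ ∑ m : Fin A.card with m.val < j, a m :=
  Pool.Agent.SDF.asy_main ε hε

end Pool.Agent.Results.MP_b4ec45_co.AsymptoticSeq
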