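import Mathlib
import Pool.Agent.Lib_helper26.SLD.Sub

/-!
Large sets of nonzero elements of an abelian group which are not concentrated in a finite subgroup
of comparable order are sequenceable (Alspach-Liversidge conjecture for these sets).

Idea of the proof.  Take a random ordering; coincidences of partial sums are repaired by
interchanging neighbours, chosen by 2-SAT; unsatisfiable instances contain long chains or
near-cycles of linear equations between partial sums, which are excluded by a union bound.  As all
pairs of partial sums count now, the probability of one equation must be `1 / (C |A|)` with a large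
`C`: if `A` is not concentrated in a coset of a small subgroup this is a collision bound for random
subset sums (`Pool.Agent.SPQ`); if nearly all of `A` lies in a coset `x + H` such that `x` has order
more than `10 ^ 10` modulo `H`, the few other elements are put at prescribed places and only few
pairs of partial sums are in the same coset of `H` (`Pool.Agent.SLD`).

Authors: helper8 (sparse case, `Lib_helper8/SPQ`), helper26 (large order, `Lib_helper26/SLD`), with
blocks by helper1, helper2, helper14, helper19, helper21, helper33, helper37, helper39, helper53,
helper54, helper67, helper73, helper74, helper85, helper87, helper89, helper92, helper97, helper99;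
on top of `Lib_helper26/SEQ` (see `LinearRange`).
-/

namespace Pool.Agent.Results.MP_b4ec45_co.SubgroupSparse

theorem result : ∃ K : ℕ, ∀ {G : Type*} [AddCommGroup G] (A : Finset G), (0 : G) ∉ A →
    K ≤ A.card →
    (∀ V : AddSubgroup G, (V : Set G).Finite → Nat.card V ≤ 10 ^ 14 * A.card →
      (A.card : ℝ) ^ (9 / 10 : ℝ) < (((A : Set G) \ V).ncard : ℝ)) →
    ∃ a : Fin A.card → G, Function.Injective a ∧ Set.range a = (A : Set G) ∧
      ∀ i j : ℕ, i < j → j ≤ A.card → ¬ (i = 0 ∧ j = A.card) →
        ∑ m : Fin A.card with m.val < i, a m ≠ ∑ m : Fin A.card with m.val < j, a m :=
  Pool.Agent.SLD.sub_main

end Pool.Agent.Results.MP_b4ec45_co.SubgroupSparse
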